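import Pool.Agent.J4H63.KS.Stm

/-!
# A small set contains many of the disjoint sets (piece HIT of project KS of helper63)
-/

set_option autoImplicit false

namespace Pool.Agent.J4H36.KS

open Finset
open Pool.Agent.J4H63.KS (S_HIT)

/-- the first step: the set `T` of heads -/
theorem step {V ι : Type} [Fintype V] [DecidableEq V] [DecidableEq ι] {g : ℕ} (g1 q Q : ℕ)
    (hq : 1 ≤ q) (I : Finset V) (K : Finset ι) (h : ι → Fin g → Option V)
    (hg : g1 + 2 * q * (2 * q * (g1 * Q + 1)) + 1 ≤ g)
    (hK : K.card ≤ Q * Fintype.card V) (hI : ∀ κ ∈ K, ∀ l x, h κ l = some x → x ∈ I)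
    (hinj : ∀ κ ∈ K, ∀ l l' x, h κ l = some x → h κ l' = some x → l = l') :
    ∃ T ⊆ I, 2 * q * T.card ≤ Fintype.card V ∧
      2 * q * (K.filter (fun κ => (univ.filter (fun l => ∀ x, h κ l = some x → x ∈ T)).card < g1)).card ≤
        Fintype.card V := by
  classical
  obtain ⟨lam, hlam⟩ : ∃ lam, lam = 2 * q * (g1 * Q + 1) := ⟨_, rfl⟩
  have hlam0 : 0 < lam := by rw [hlam]; positivity
  obtain ⟨c, hc⟩ : ∃ c : Finset V → ι → ℕ, ∀ T κ, c T κ =
      (univ.filter (fun l => ∀ x, h κ l = some x → x ∈ T)).card := ⟨_, fun _ _ => rfl⟩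
  obtain ⟨T, hT, hmax⟩ := Finset.exists_max_image I.powerset
    (fun T => ((∑ κ ∈ K, min g1 (c T κ) : ℕ) : ℤ) - lam * (T.card : ℤ))
    ⟨∅, Finset.empty_mem_powerset I⟩
  rw [Finset.mem_powerset] at hT
  refine ⟨T, hT, ?_, ?_⟩
  · have h1 := hmax ∅ (Finset.empty_mem_powerset I)
    simp only [Finset.card_empty, Nat.cast_zero, mul_zero, sub_zero] at h1
    have h2 : (0 : ℤ) ≤ ((∑ κ ∈ K, min g1 (c ∅ κ) : ℕ) : ℤ) := Int.natCast_nonneg _
    have h3 : ∑ κ ∈ K, min g1 (c T κ) ≤ K.card * g1 := by
      rw [← smul_eq_mul]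
      exact Finset.sum_le_card_nsmul _ _ _ fun κ _ => min_le_left _ _
    have h4 : lam * T.card ≤ K.card * g1 := by
      have hZ : ((lam * T.card : ℕ) : ℤ) ≤ ((∑ κ ∈ K, min g1 (c T κ) : ℕ) : ℤ) := by
        rw [Nat.cast_mul]
        linarith
      exact (Int.ofNat_le.1 hZ).trans h3
    by_contra hcon
    push Not at hcon
    have h5 : K.card * g1 ≤ Q * Fintype.card V * g1 := Nat.mul_le_mul_right _ hK
    have h6 : (g1 * Q + 1) * (Fintype.card V + 1) ≤ (g1 * Q + 1) * (2 * q * T.card) :=
      Nat.mul_le_mul_left _ hcon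
    have h7 : (g1 * Q + 1) * (2 * q * T.card) = lam * T.card := by rw [hlam]; ring
    nlinarith
  · -- marginal gains
    have hm : ∀ x ∈ I \ T, ((K.filter (fun κ => c T κ < g1)).filter
        (fun κ => ∃ l, h κ l = some x)).card ≤ lam := by
      intro x hx
      rw [Finset.mem_sdiff] at hx
      have h1 := hmax (insert x T) (Finset.mem_powerset.2 (Finset.insert_subset hx.1 hT))
      simp only [Finset.card_insert_of_notMem hx.2] at h1
      push_cast at h1
      have h2 : ∀ κ ∈ K, min g1 (c T κ) +
          (if c T κ < g1 ∧ ∃ l, h κ l = some x then 1 else 0) ≤ min g1 (c (insert x T) κ) := by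
        intro κ hκ
        have hle : c T κ ≤ c (insert x T) κ := by
          rw [hc, hc]
          refine Finset.card_le_card fun l hl => ?_
          rw [Finset.mem_filter] at hl ⊢
          exact ⟨hl.1, fun y hy => Finset.mem_insert_of_mem (hl.2 y hy)⟩
        split_ifs with hcase
        · obtain ⟨hlt, l, hl⟩ := hcase
          have hlt2 : c T κ < c (insert x T) κ := by
            rw [hc, hc]
            refine Finset.card_lt_card ⟨fun l hl => ?_, fun hsub => ?_⟩
            · rw [Finset.mem_filter] at hl ⊢
              exact ⟨hl.1, fun y hy => Finset.mem_insert_of_mem (hl.2 y hy)⟩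
            · have h3 : l ∈ univ.filter (fun l => ∀ y, h κ l = some y → y ∈ insert x T) := by
                rw [Finset.mem_filter]
                refine ⟨Finset.mem_univ _, fun y hy => ?_⟩
                rw [hl] at hy
                rw [Option.some.inj hy]
                exact Finset.mem_insert_self _ _
              have h4 := (Finset.mem_filter.1 (hsub h3)).2 x hl
              exact hx.2 h4
          omega
        · omega
      have h3 := Finset.sum_le_sum h2
      rw [Finset.sum_add_distrib] at h3
      have h4 : ∑ κ ∈ K, (if c T κ < g1 ∧ ∃ l, h κ l = some x then 1 else 0) =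
          ((K.filter (fun κ => c T κ < g1)).filter (fun κ => ∃ l, h κ l = some x)).card := by
        rw [Finset.filter_filter, Finset.card_filter]
      rw [h4] at h3
      have h5 : ((∑ κ ∈ K, min g1 (c T κ) : ℕ) : ℤ) +
          (((K.filter (fun κ => c T κ < g1)).filter (fun κ => ∃ l, h κ l = some x)).card : ℤ) ≤
          ((∑ κ ∈ K, min g1 (c (insert x T) κ) : ℕ) : ℤ) := by exact_mod_cast h3
      push_cast at h5
      have h6 : (((K.filter (fun κ => c T κ < g1)).filter
          (fun κ => ∃ l, h κ l = some x)).card : ℤ) ≤ lam := by linarith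
      exact_mod_cast h6
    -- many heads for each unsaturated index
    have hmany : ∀ κ ∈ K.filter (fun κ => c T κ < g1),
        2 * q * lam + 1 ≤ ((I \ T).filter (fun x => ∃ l, h κ l = some x)).card := by
      intro κ hκ
      rw [Finset.mem_filter] at hκ
      have h1 : (univ.filter (fun l => ¬ ∀ x, h κ l = some x → x ∈ T)).card =
          g - c T κ := by
        rw [hc]
        have := Finset.card_filter_add_card_filter_not (s := (univ : Finset (Fin g)))
          (fun l => ∀ x, h κ l = some x → x ∈ T)
        rw [Finset.card_univ, Fintype.card_fin] at this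
        omega
      have h2 : (univ.filter (fun l => ¬ ∀ x, h κ l = some x → x ∈ T)).card ≤
          ((I \ T).filter (fun x => ∃ l, h κ l = some x)).card := by
        have hx : ∀ l ∈ univ.filter (fun l => ¬ ∀ x, h κ l = some x → x ∈ T),
            ∃ x, h κ l = some x ∧ x ∉ T := by
          intro l hl
          have := (Finset.mem_filter.1 hl).2
          push Not at this
          exact this
        by_cases hV : Nonempty V
        swap
        · have he : univ.filter (fun l => ¬ ∀ x, h κ l = some x → x ∈ T) = ∅ := by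
            rw [Finset.filter_eq_empty_iff]
            intro l hl hl2
            obtain ⟨x, _⟩ := hx l (Finset.mem_filter.2 ⟨hl, hl2⟩)
            exact hV ⟨x⟩
          rw [he]
          simp
        choose! f hf using hx
        refine Finset.card_le_card_of_injOn f (fun l hl => ?_) (fun l hl l' hl' hll => ?_)
        · rw [Finset.mem_coe, Finset.mem_filter, Finset.mem_sdiff]
          exact ⟨⟨hI κ hκ.1 l _ (hf l hl).1, (hf l hl).2⟩, l, (hf l hl).1⟩
        · exact hinj κ hκ.1 l l' (f l) (hf l hl).1 (hll ▸ (hf l' hl').1)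
      rw [h1] at h2
      rw [← hlam] at hg
      omega
    have hdc := Finset.sum_card_bipartiteAbove_eq_sum_card_bipartiteBelow
      (s := K.filter (fun κ => c T κ < g1)) (t := I \ T) (fun κ x => ∃ l, h κ l = some x)
    have h1 : (K.filter (fun κ => c T κ < g1)).card * (2 * q * lam + 1) ≤
        ∑ κ ∈ K.filter (fun κ => c T κ < g1),
          (Finset.bipartiteAbove (fun κ x => ∃ l, h κ l = some x) (I \ T) κ).card := by
      rw [← smul_eq_mul]
      exact Finset.card_nsmul_le_sum _ _ _ hmany
    have h2 : ∑ x ∈ I \ T, (Finset.bipartiteBelow (fun κ x => ∃ l, h κ l = some x)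
        (K.filter (fun κ => c T κ < g1)) x).card ≤ (I \ T).card * lam := by
      rw [← smul_eq_mul]
      exact Finset.sum_le_card_nsmul _ _ _ hm
    have h3 : (I \ T).card ≤ Fintype.card V := Finset.card_le_univ _
    have h4 : (K.filter (fun κ => c T κ < g1)).card * (2 * q * lam + 1) ≤ Fintype.card V * lam :=
      (h1.trans (hdc.le.trans h2)).trans (Nat.mul_le_mul_right _ h3)
    simp only [← hc]
    by_contra hcon
    push Not at hcon
    have h5 : (Fintype.card V + 1) * lam ≤
        2 * q * (K.filter (fun κ => c T κ < g1)).card * lam := Nat.mul_le_mul_right _ hcon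
    nlinarith

theorem t_HIT : S_HIT := by
  intro i
  induction i with
  | zero =>
    intro b q Q hq
    refine ⟨b, fun V ι _ _ _ I K F hK hF hd => ⟨∅, Finset.empty_subset _, by simp, ?_⟩⟩
    have h1 : K.filter (fun κ => (univ.filter (fun l => F κ l ⊆ ∅)).card < b) = ∅ := by
      rw [Finset.filter_eq_empty_iff]
      intro κ hκ
      have h2 : univ.filter (fun l => F κ l ⊆ ∅) = univ := by
        rw [Finset.filter_eq_self]
        intro l _
        rw [Finset.card_eq_zero.1 (Nat.le_zero.1 (hF κ hκ l).2)]
      rw [h2, Finset.card_univ, Fintype.card_fin]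
      exact lt_irrefl b
    rw [h1]
    simp
  | succ i ih =>
    intro b q Q hq
    obtain ⟨g1, hg1⟩ := ih b (2 * q) Q (by omega)
    refine ⟨g1 + 2 * q * (2 * q * (g1 * Q + 1)) + 1, ?_⟩
    intro V ι _ _ _ I K F hK hF hd
    classical
    have hh : ∀ κ l, ∃ o : Option V, (o = none → F κ l = ∅) ∧ ∀ x, o = some x → x ∈ F κ l := by
      intro κ l
      rcases (F κ l).eq_empty_or_nonempty with h0 | ⟨x, hx⟩
      · exact ⟨none, fun _ => h0, fun x hx => by simp at hx⟩
      · exact ⟨some x, fun h => by simp at h, fun y hy => Option.some.inj hy ▸ hx⟩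
    choose h hn hs using hh
    obtain ⟨T1, hT1, hc1, hU⟩ := step g1 q Q hq I K h le_rfl hK
      (fun κ hκ l x hx => (hF κ hκ l).1 (hs κ l x hx))
      (fun κ hκ l l' x hx hx' => by
        by_contra hne
        exact Finset.disjoint_left.1 (hd κ hκ l l' hne) (hs κ l x hx) (hs κ l' x hx'))
    have hG : ∀ κ, ∃ G : Fin g1 → Fin (g1 + 2 * q * (2 * q * (g1 * Q + 1)) + 1),
        Function.Injective G ∧
        (¬ (univ.filter (fun l => ∀ x, h κ l = some x → x ∈ T1)).card < g1 →
          ∀ l x, h κ (G l) = some x → x ∈ T1) := by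
      intro κ
      by_cases hk : (univ.filter (fun l => ∀ x, h κ l = some x → x ∈ T1)).card < g1
      · exact ⟨Fin.castLE (by omega), Fin.castLE_injective _, fun h => (h hk).elim⟩
      · obtain ⟨S, hS, hSc⟩ := Finset.exists_subset_card_eq (not_lt.1 hk)
        refine ⟨S.orderEmbOfFin hSc, (S.orderEmbOfFin hSc).injective, fun _ l x hx => ?_⟩
        exact (Finset.mem_filter.1 (hS (Finset.orderEmbOfFin_mem S hSc l))).2 x hx
    choose G hGi hGh using hG
    obtain ⟨K', hK'⟩ : ∃ K', K' = K.filter (fun κ =>
        ¬ (univ.filter (fun l => ∀ x, h κ l = some x → x ∈ T1)).card < g1) := ⟨_, rfl⟩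
    have hK'K : K' ⊆ K := by rw [hK']; exact Finset.filter_subset _ _
    obtain ⟨T2, hT2, hc2, hU2⟩ := hg1 V ι I K'
      (fun κ l => (F κ (G κ l)).filter (fun x => h κ (G κ l) ≠ some x))
      ((Finset.card_le_card hK'K).trans hK)
      (fun κ hκ l => by
        have hκ' := hK'K hκ
        refine ⟨(Finset.filter_subset _ _).trans (hF κ hκ' _).1, ?_⟩
        rcases ho : h κ (G κ l) with _ | x
        · rw [hn _ _ ho]
          simp
        · have hx := hs _ _ _ ho
          have h1 : (F κ (G κ l)).filter (fun y => some x ≠ some y) ⊆ (F κ (G κ l)).erase x := by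
            intro y hy
            rw [Finset.mem_filter] at hy
            exact Finset.mem_erase.2 ⟨fun h => hy.2 (by rw [h]), hy.1⟩
          have h2 := Finset.card_le_card h1
          rw [Finset.card_erase_of_mem hx] at h2
          have h3 := (hF κ hκ' (G κ l)).2
          omega)
      (fun κ hκ l l' hne => by
        have h1 := hd κ (hK'K hκ) (G κ l) (G κ l') (fun h => hne (hGi κ h))
        exact Finset.disjoint_of_subset_left (Finset.filter_subset _ _)
          (Finset.disjoint_of_subset_right (Finset.filter_subset _ _) h1))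
    refine ⟨T1 ∪ T2, Finset.union_subset hT1 hT2, ?_, ?_⟩
    · have h1 := Nat.mul_le_mul_left q (Finset.card_union_le T1 T2)
      nlinarith
    · have h1 : K.filter (fun κ => (univ.filter (fun l => F κ l ⊆ T1 ∪ T2)).card < b) ⊆
          K.filter (fun κ => (univ.filter (fun l => ∀ x, h κ l = some x → x ∈ T1)).card < g1) ∪
          K'.filter (fun κ => (univ.filter (fun l =>
            (F κ (G κ l)).filter (fun x => h κ (G κ l) ≠ some x) ⊆ T2)).card < b) := by
        intro κ hκ
        rw [Finset.mem_filter] at hκ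
        rw [Finset.mem_union]
        by_cases hk : (univ.filter (fun l => ∀ x, h κ l = some x → x ∈ T1)).card < g1
        · exact Or.inl (Finset.mem_filter.2 ⟨hκ.1, hk⟩)
        · right
          rw [Finset.mem_filter]
          refine ⟨by rw [hK']; exact Finset.mem_filter.2 ⟨hκ.1, hk⟩, lt_of_le_of_lt ?_ hκ.2⟩
          refine Finset.card_le_card_of_injOn (G κ) (fun l hl => ?_) ((hGi κ).injOn)
          rw [Finset.mem_coe, Finset.mem_filter] at hl ⊢
          refine ⟨Finset.mem_univ _, fun x hx => ?_⟩
          by_cases hxo : h κ (G κ l) = some x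
          · exact Finset.mem_union_left _ (hGh κ hk l x hxo)
          · exact Finset.mem_union_right _ (hl.2 (Finset.mem_filter.2 ⟨hx, hxo⟩))
      have h2 := Nat.mul_le_mul_left q ((Finset.card_le_card h1).trans (Finset.card_union_le _ _))
      nlinarith

end Pool.Agent.J4H36.KS
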